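import Mathlib
import Pool.Agent.H78.PSchurBasic
import Pool.Agent.H78.PSchurFinite
import Pool.Agent.H78.PSchurAsymp

/-!
`n^(-1/11)` is not a threshold for the binomial random subset of `{1, …, n}` to be
product-Schur: the random set is asymptotically almost surely product-Schur as soon as
`p` is much larger than `n^(-1/11) (log n)^(-2/11)`.
-/

open Filter Topology

noncomputable section

namespace Pool.Agent.Results.MP_63285e_co.NotThreshold

open Pool.Agent.H78.PSchur (ProductSchur)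

open Classical in
/-- The probability that `[n]_p` is product-Schur, where `[n]_p` is the random subset of
`{1, …, n}` containing each element independently with probability `p`. -/
def probSchur (n : ℕ) (p : ℝ) : ℝ :=
  ∑ A ∈ (Finset.Icc 1 n).powerset.filter (fun A : Finset ℕ => ProductSchur (A : Set ℕ)),
    p ^ A.card * (1 - p) ^ (n - A.card)

/-- `f` is a threshold for `[n]_p` to be product-Schur. -/
def IsThreshold (f : ℕ → ℝ) : Prop :=
  (∀ p : ℕ → ℝ, (∀ n, 0 ≤ p n ∧ p n ≤ 1) → Tendsto (fun n => p n / f n) atTop atTop →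
    Tendsto (fun n => probSchur n (p n)) atTop (𝓝 1)) ∧
  (∀ p : ℕ → ℝ, (∀ n, 0 ≤ p n ∧ p n ≤ 1) → Tendsto (fun n => p n / f n) atTop (𝓝 0) →
    Tendsto (fun n => probSchur n (p n)) atTop (𝓝 0))

open Pool.Agent.H78.PSchur

open Classical in
theorem probSchur_eq (n : ℕ) (p : ℝ) : probSchur n p
    = E (Finset.Icc 1 n) p (fun S => if ProductSchur (S : Set ℕ) then 1 else 0) := by
  unfold probSchur E
  rw [Finset.sum_filter, Nat.card_Icc, Nat.add_sub_cancel]
  refine Finset.sum_congr rfl fun S _ => ?_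
  by_cases h : ProductSchur (S : Set ℕ) <;> simp [h]

open Classical in
theorem probSchur_compl (n : ℕ) (p : ℝ) : probSchur n p
    = 1 - E (Finset.Icc 1 n) p (fun S => if ProductSchur (S : Set ℕ) then 0 else 1) := by
  have h := E_one (Finset.Icc 1 n) p
  have h2 : E (Finset.Icc 1 n) p (fun _ => 1)
      = probSchur n p
        + E (Finset.Icc 1 n) p (fun S => if ProductSchur (S : Set ℕ) then 0 else 1) := by
    rw [probSchur_eq, ← E_add]
    refine E_congr fun S _ => ?_
    split_ifs <;> norm_num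
  linarith

theorem probSchur_mono (n : ℕ) {p q : ℝ} (hp : 0 ≤ p) (hpq : p ≤ q) (hq : q ≤ 1) :
    probSchur n p ≤ probSchur n q := by
  classical
  rw [probSchur_eq, probSchur_eq]
  refine E_mono_p _ _ (fun S T hST => ?_) p q hp hpq hq
  by_cases hS : ProductSchur (S : Set ℕ)
  · rw [if_pos hS, if_pos (hS.mono (Finset.coe_subset.2 hST))]
  · rw [if_neg hS]
    split_ifs <;> norm_num

theorem probSchur_le_one (n : ℕ) {p : ℝ} (hp : 0 ≤ p) (hp1 : p ≤ 1) : probSchur n p ≤ 1 := by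
  classical
  rw [probSchur_eq]
  refine le_trans (E_mono (g := fun _ => 1) hp hp1 fun S _ => ?_) (E_one _ _).le
  split_ifs <;> norm_num

theorem log_tendsto : Tendsto (fun n : ℕ => Real.log n) atTop atTop :=
  Real.tendsto_log_atTop.comp tendsto_natCast_atTop_atTop

theorem eventually_big : ∀ᶠ n : ℕ in atTop,
    64 * Real.log n ^ 11 ≤ Real.exp (Real.log n / 44) := by
  have h1 : Tendsto (fun n : ℕ => Real.log n / 44) atTop atTop :=
    log_tendsto.atTop_div_const (by norm_num)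
  have h2 := (Real.tendsto_exp_div_pow_atTop 11).comp h1
  filter_upwards [h2.eventually_ge_atTop (64 * 44 ^ 11), h1.eventually_ge_atTop 1] with n hn hn1
  simp only [Function.comp] at hn
  rw [le_div_iff₀ (by positivity)] at hn
  calc 64 * Real.log n ^ 11 = 64 * 44 ^ 11 * (Real.log n / 44) ^ 11 := by ring
    _ ≤ _ := hn

/-- The random set is a.a.s. product-Schur for `p ≫ n^(-1/11) (log n)^(-2/11)`. -/
theorem tendsto_one (p : ℕ → ℝ) (h01 : ∀ n, 0 ≤ p n ∧ p n ≤ 1)
    (hlim : Tendsto (fun n : ℕ => p n * (n : ℝ) ^ (1 / 11 : ℝ) * Real.log n ^ (2 / 11 : ℝ))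
      atTop atTop) :
    Tendsto (fun n => probSchur n (p n)) atTop (𝓝 1) := by
  set q : ℕ → ℝ := fun n => min (p n) ((n : ℝ) ^ (-(1 / 11) : ℝ)) with hq
  set z : ℕ → ℝ := fun n => q n * (n : ℝ) ^ (1 / 11 : ℝ) * Real.log n ^ (2 / 11 : ℝ) with hz
  have hlogpow : Tendsto (fun n : ℕ => Real.log n ^ (2 / 11 : ℝ)) atTop atTop :=
    (tendsto_rpow_atTop (by norm_num : (0 : ℝ) < 2 / 11)).comp log_tendsto
  have hzlim : Tendsto z atTop atTop := by
    rw [tendsto_atTop]
    intro b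
    filter_upwards [hlim.eventually_ge_atTop b, hlogpow.eventually_ge_atTop b,
      eventually_ge_atTop 1] with n h1 h2 hn1
    have hn0 : (0 : ℝ) < n := by exact_mod_cast hn1
    simp only [hz, hq]
    rcases min_choice (p n) ((n : ℝ) ^ (-(1 / 11) : ℝ)) with h | h
    · rw [h]
      exact h1
    · rw [h, ← Real.rpow_add hn0]
      norm_num
      norm_num at h2
      exact h2
  have hslim : Tendsto (fun n => z n ^ (11 / 4 : ℝ)) atTop atTop :=
    (tendsto_rpow_atTop (by norm_num : (0 : ℝ) < 11 / 4)).comp hzlim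
  have hxlim : Tendsto (fun n : ℕ => Real.exp (Real.log n / 44)) atTop atTop :=
    Real.tendsto_exp_atTop.comp (log_tendsto.atTop_div_const (by norm_num))
  have herr : Tendsto (fun n : ℕ => 1 - (50 / Real.log n + 1 / Real.exp (Real.log n / 44)
      + 208 / z n ^ (11 / 4 : ℝ))) atTop (𝓝 1) := by
    have e1 : Tendsto (fun n : ℕ => 50 / Real.log n) atTop (𝓝 0) :=
      log_tendsto.const_div_atTop 50
    have e2 : Tendsto (fun n : ℕ => 1 / Real.exp (Real.log n / 44)) atTop (𝓝 0) :=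
      hxlim.const_div_atTop 1
    have e3 : Tendsto (fun n : ℕ => 208 / z n ^ (11 / 4 : ℝ)) atTop (𝓝 0) :=
      hslim.const_div_atTop 208
    have e4 := ((e1.add e2).add e3).const_sub 1
    simpa using e4
  refine tendsto_of_tendsto_of_tendsto_of_le_of_le' herr tendsto_const_nhds ?_
    (Eventually.of_forall fun n => probSchur_le_one n (h01 n).1 (h01 n).2)
  filter_upwards [hzlim.eventually_ge_atTop 1, log_tendsto.eventually_ge_atTop 400,
    eventually_big, eventually_ge_atTop 1] with n hz1 h400 hbig hn1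
  have hn0 : (0 : ℝ) < n := by exact_mod_cast hn1
  have hlog0 : 0 < Real.log n := by linarith
  have hqp : q n ≤ p n := min_le_left _ _
  have hqn : q n ≤ (n : ℝ) ^ (-(1 / 11) : ℝ) := min_le_right _ _
  have hn11 : 0 < (n : ℝ) ^ (1 / 11 : ℝ) := Real.rpow_pos_of_pos hn0 _
  have hl11 : 0 < Real.log n ^ (2 / 11 : ℝ) := Real.rpow_pos_of_pos hlog0 _
  have hz0 : 0 < z n := by linarith
  have hq0 : 0 < q n := by
    by_contra hcon
    push Not at hcon
    have : z n ≤ 0 := by
      simp only [hz]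
      rw [mul_assoc]
      exact mul_nonpos_of_nonpos_of_nonneg hcon (by positivity)
    linarith
  have hx4 : Real.exp (Real.log n / 44) ^ 4 = (n : ℝ) ^ (1 / 11 : ℝ) := by
    rw [← Real.exp_nat_mul, Real.rpow_def_of_pos hn0]
    congr 1
    push_cast
    ring
  have hr : Real.exp (Real.log n / 44) ^ 4 ≤ (q n)⁻¹ := by
    rw [hx4]
    rw [Real.rpow_neg hn0.le] at hqn
    rw [le_inv_comm₀ hn11 hq0]
    exact hqn
  have hs1 : 1 ≤ z n ^ (11 / 4 : ℝ) := Real.one_le_rpow hz1 (by norm_num)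
  have hs4 : (z n ^ (11 / 4 : ℝ)) ^ 4 = z n ^ 11 := by
    rw [← Real.rpow_natCast (z n ^ (11 / 4 : ℝ)) 4, ← Real.rpow_mul hz0.le,
      ← Real.rpow_natCast (z n) 11]
    norm_num
  have hz11 : z n ^ 11 = q n ^ 11 * n * Real.log n ^ 2 := by
    simp only [hz]
    rw [mul_pow, mul_pow, ← Real.rpow_natCast ((n : ℝ) ^ (1 / 11 : ℝ)) 11,
      ← Real.rpow_mul hn0.le, ← Real.rpow_natCast (Real.log n ^ (2 / 11 : ℝ)) 11,
      ← Real.rpow_mul hlog0.le]
    norm_num
  have hrs : (q n)⁻¹ ^ 11 * (z n ^ (11 / 4 : ℝ)) ^ 4 = n * Real.log n ^ 2 := by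
    rw [hs4, hz11, inv_pow]
    have : q n ^ 11 ≠ 0 := by positivity
    field_simp
  have hb := numeric_bound n hn1 (q n)⁻¹ (z n ^ (11 / 4 : ℝ)) (Real.log n)
    (Real.exp (Real.log n / 44)) rfl rfl h400 hbig hr hs1 hrs
  rw [inv_inv] at hb
  calc 1 - (50 / Real.log n + 1 / Real.exp (Real.log n / 44) + 208 / z n ^ (11 / 4 : ℝ))
      ≤ probSchur n (q n) := by
        rw [probSchur_compl]
        linarith
    _ ≤ probSchur n (p n) := probSchur_mono n hq0.le hqp (h01 n).2

/-- **Main result.** -/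
theorem result :
    (∀ p : ℕ → ℝ, (∀ n, 0 ≤ p n ∧ p n ≤ 1) →
      Tendsto (fun n : ℕ => p n / ((n : ℝ) ^ (-(1 / 11) : ℝ) * Real.log n ^ (-(2 / 11) : ℝ)))
        atTop atTop →
      Tendsto (fun n => probSchur n (p n)) atTop (𝓝 1)) ∧
    (∃ p : ℕ → ℝ, (∀ n, 0 ≤ p n ∧ p n ≤ 1) ∧
      Tendsto (fun n : ℕ => p n / (n : ℝ) ^ (-(1 / 11) : ℝ)) atTop (𝓝 0) ∧
      Tendsto (fun n => probSchur n (p n)) atTop (𝓝 1)) ∧
    ¬ IsThreshold (fun n => (n : ℝ) ^ (-(1 / 11) : ℝ)) := by
  have part1 : ∀ p : ℕ → ℝ, (∀ n, 0 ≤ p n ∧ p n ≤ 1) →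
      Tendsto (fun n : ℕ => p n / ((n : ℝ) ^ (-(1 / 11) : ℝ) * Real.log n ^ (-(2 / 11) : ℝ)))
        atTop atTop →
      Tendsto (fun n => probSchur n (p n)) atTop (𝓝 1) := by
    intro p h01 hlim
    refine tendsto_one p h01 (hlim.congr' ?_)
    filter_upwards [log_tendsto.eventually_gt_atTop 0] with n hn
    rw [Real.rpow_neg (Nat.cast_nonneg n), Real.rpow_neg hn.le, ← mul_inv, div_inv_eq_mul,
      mul_assoc]
  have part2 : ∃ p : ℕ → ℝ, (∀ n, 0 ≤ p n ∧ p n ≤ 1) ∧
      Tendsto (fun n : ℕ => p n / (n : ℝ) ^ (-(1 / 11) : ℝ)) atTop (𝓝 0) ∧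
      Tendsto (fun n => probSchur n (p n)) atTop (𝓝 1) := by
    have hl : Tendsto (fun n : ℕ => Real.log n ^ (1 / 11 : ℝ)) atTop atTop :=
      (tendsto_rpow_atTop (by norm_num : (0 : ℝ) < 1 / 11)).comp log_tendsto
    set p : ℕ → ℝ := fun n =>
      min 1 ((n : ℝ) ^ (-(1 / 11) : ℝ) * Real.log n ^ (-(1 / 11) : ℝ)) with hp
    have h01 : ∀ n, 0 ≤ p n ∧ p n ≤ 1 := by
      intro n
      refine ⟨le_min zero_le_one (mul_nonneg (Real.rpow_nonneg (Nat.cast_nonneg n) _)
        (Real.rpow_nonneg (Real.log_natCast_nonneg n) _)), min_le_left _ _⟩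
    have hev : ∀ᶠ n : ℕ in atTop,
        p n = (n : ℝ) ^ (-(1 / 11) : ℝ) * Real.log n ^ (-(1 / 11) : ℝ) := by
      filter_upwards [log_tendsto.eventually_ge_atTop 1, eventually_ge_atTop 1] with n hn hn1
      simp only [hp]
      refine min_eq_right (mul_le_one₀ ?_ (Real.rpow_nonneg (by linarith) _) ?_)
      · exact Real.rpow_le_one_of_one_le_of_nonpos (by exact_mod_cast hn1) (by norm_num)
      · exact Real.rpow_le_one_of_one_le_of_nonpos hn (by norm_num)
    refine ⟨p, h01, ?_, ?_⟩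
    · have h1 : Tendsto (fun n : ℕ => (Real.log n ^ (1 / 11 : ℝ))⁻¹) atTop (𝓝 0) :=
        tendsto_inv_atTop_zero.comp hl
      refine h1.congr' ?_
      filter_upwards [hev, log_tendsto.eventually_ge_atTop 1, eventually_ge_atTop 1]
        with n h2 h3 h4
      have h5 : (n : ℝ) ^ (-(1 / 11) : ℝ) ≠ 0 :=
        (Real.rpow_pos_of_pos (by exact_mod_cast h4) _).ne'
      rw [h2, mul_div_cancel_left₀ _ h5, Real.rpow_neg (by linarith)]
    · refine part1 p h01 ?_
      refine hl.congr' ?_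
      filter_upwards [hev, log_tendsto.eventually_ge_atTop 1, eventually_ge_atTop 1]
        with n h2 h3 h4
      have h5 : (n : ℝ) ^ (-(1 / 11) : ℝ) ≠ 0 :=
        (Real.rpow_pos_of_pos (by exact_mod_cast h4) _).ne'
      have h6 : 0 < Real.log n := by linarith
      rw [h2, mul_div_mul_left _ _ h5, ← Real.rpow_sub h6]
      norm_num
  refine ⟨part1, part2, ?_⟩
  rintro ⟨-, h⟩
  obtain ⟨p, h01, h0, h1⟩ := part2
  have h2 := h p h01 h0
  exact zero_ne_one (tendsto_nhds_unique h2 h1)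

end Pool.Agent.Results.MP_63285e_co.NotThreshold
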